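import Mathlib

set_option autoImplicit false

namespace Pool.Agent.H590Z.HC

open Finset

/-- The Cauchy transform `∑ k t / (z - t)` of a sequence on the integers. -/
noncomputable def Ch (k : ℤ → ℂ) (z : ℂ) : ℂ := ∑' t : ℤ, k t / (z - t)

/-- The derivative of `Ch g` at `z`, written as a series. -/
noncomputable def Dv (g : ℤ → ℂ) (z : ℂ) : ℂ := ∑' t : ℤ, g t / ((t - z) * (z - t))

open Classical in
/-- The diagonal term `(f, e'_n) (e_n, v)` in coordinates `x` of `f` and `y` of `v`. -/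
noncomputable def dg (N : Set ℤ) (lam g x y : ℤ → ℂ) (n : ℤ) : ℂ :=
  if n ∈ N then -(Ch (fun t => g t * x t) (lam n) * Ch y (lam n)) / Dv g (lam n)
  else (x n - Ch (fun t => g t * x t) n / Ch g n) * y n

/-- The finite product `z⁻¹ ∏ (z - lam t) / (z - t)`. -/
noncomputable def bS (S : Finset ℤ) (lam : ℤ → ℂ) (z : ℂ) : ℂ :=
  z⁻¹ * ∏ t ∈ S, (z - lam t) / (z - t)

/-- The residue of `bS S lam` at `t ∈ insert 0 S`. -/
noncomputable def gS (S : Finset ℤ) (lam : ℤ → ℂ) (t : ℤ) : ℂ :=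
  (∏ u ∈ S, ((t : ℂ) - lam u)) / ∏ u ∈ (insert 0 S).erase t, ((t : ℂ) - u)

/-- The residue of `1 / bS S lam` at `lam t`. -/
noncomputable def rS (S : Finset ℤ) (lam : ℤ → ℂ) (t : ℤ) : ℂ :=
  lam t * (lam t - t) * ∏ u ∈ S.erase t, (lam t - u) / (lam t - lam u)

/-- The quotient `(∑ k t / (w - t)) / bS S lam w`, written through its poles. -/
noncomputable def zS (S : Finset ℤ) (lam k : ℤ → ℂ) (w : ℂ) : ℂ :=
  ∑ t ∈ insert 0 S, k t +
    ∑ t ∈ S, rS S lam t * (∑ u ∈ insert 0 S, k u / (lam t - u)) / (w - lam t)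

end Pool.Agent.H590Z.HC
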