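import Mathlib

set_option autoImplicit false

namespace Pool.Agent.H590Z.HC

/-- The nodes `T + j s` of a block. -/
noncomputable def nd (T s : ℝ) (j : ℕ) : ℝ := T + j * s

/-- The moved nodes `T + j s ± i h`. -/
noncomputable def zr (T s h : ℝ) (j : ℕ) : ℂ := (nd T s j : ℂ) + Complex.I * ((-1) ^ j * h)

/-- The product `∏_{l = 1}^J (1 + η² / l²)`. -/
noncomputable def PP (η : ℝ) (J : ℕ) : ℝ := ∏ l ∈ Finset.range J, (1 + η ^ 2 / ((l : ℝ) + 1) ^ 2)

end Pool.Agent.H590Z.HC
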