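import Mathlib

set_option autoImplicit false

open MeasureTheory Filter Topology

namespace Pool.Agent.H590Z.HC

/-- The Hilbert space `L²(-π, π)`. -/
abbrev H : Type := Lp ℂ 2 (volume.restrict (Set.Ioc (-Real.pi) Real.pi))

lemma memLp_exp (l : ℂ) : MemLp (fun t : ℝ => Complex.exp (Complex.I * l * t)) 2
    (volume.restrict (Set.Ioc (-Real.pi) Real.pi)) := by
  have hc : Continuous fun t : ℝ => Complex.exp (Complex.I * l * t) := by fun_prop
  obtain ⟨C, hC⟩ := (isCompact_Icc (a := -Real.pi) (b := Real.pi)).exists_bound_of_continuousOn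
    hc.continuousOn
  refine MemLp.of_bound hc.aestronglyMeasurable C ?_
  filter_upwards [ae_restrict_mem measurableSet_Ioc] with t ht
  exact hC t (Set.Ioc_subset_Icc_self ht)

/-- The exponential `e_λ(t) = exp(i λ t)` as an element of `L²(-π, π)`. -/
noncomputable def ex (l : ℂ) : H := (memLp_exp l).toLp _

/-- The closed linear span of the exponentials `e_λ`, `λ ∈ Λ`, is the whole space. -/
def IsComplete (Λ : Set ℂ) : Prop := (Submodule.span ℂ (ex '' Λ)).topologicalClosure = ⊤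

/-- No `e_λ` lies in the closed linear span of the others. -/
def IsMinimal (Λ : Set ℂ) : Prop :=
  ∀ l ∈ Λ, ex l ∉ (Submodule.span ℂ (ex '' (Λ \ {l}))).topologicalClosure

open Classical in
/-- `e'` is biorthogonal to the exponentials: `(e_μ, e'_λ) = δ_{μλ}`. -/
def IsBiorthogonal (Λ : Set ℂ) (e' : ℂ → H) : Prop :=
  ∀ l ∈ Λ, ∀ m ∈ Λ, inner ℂ (e' l) (ex m) = if m = l then 1 else 0

/-- Every `f` lies in the closed span of the terms `(f, e'_λ) e_λ` of its formal series. -/
def HereditarilyComplete (Λ : Set ℂ) (e' : ℂ → H) : Prop :=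
  ∀ f : H, f ∈ (Submodule.span ℂ ((fun l => inner ℂ (e' l) f • ex l) '' Λ)).topologicalClosure

/-- A linear summation method. -/
def IsSummationMethod (R : ℕ → ℕ → ℂ) : Prop :=
  (∃ C : ℝ, ∀ j, Summable (fun k => ‖R j k‖) ∧ ∑' k, ‖R j k‖ ≤ C) ∧
  (∀ k, Tendsto (fun j => R j k) atTop (𝓝 0)) ∧ Tendsto (fun j => ∑' k, R j k) atTop (𝓝 1)

/-- The series `∑ v n` is `R`-summable to `s`: for each `j` the series `∑_k R j k • ∑_{n ≤ k} v n`
converges, and its sum tends to `s` as `j → ∞`. -/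
def RSummable (R : ℕ → ℕ → ℂ) (v : ℕ → H) (s : H) : Prop :=
  ∃ w : ℕ → H, (∀ j, Tendsto (fun K => ∑ k ∈ Finset.range K, R j k • ∑ n ∈ Finset.range (k + 1), v n)
    atTop (𝓝 (w j))) ∧ Tendsto w atTop (𝓝 s)

/-- For some enumeration of `Λ` and some method `R`, the formal series of every `f` is
`R`-summable to `f`. -/
def LinearSummationBasis (Λ : Set ℂ) (e' : ℂ → H) : Prop :=
  ∃ (en : ℕ ≃ Λ) (R : ℕ → ℕ → ℂ), IsSummationMethod R ∧
    ∀ f : H, RSummable R (fun n => inner ℂ (e' (en n)) f • ex (en n)) f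

end Pool.Agent.H590Z.HC
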