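import Pool.Agent.H590Z.HC.Blk
import Pool.Agent.H590Z.HC.Seq

set_option autoImplicit false

namespace Pool.Agent.H590Z.HC

open Finset

/-- The gap `i ^ 3` between the nodes of block `l`, where `i = l + 10`. -/
def sN (l : ℕ) : ℕ := (l + 10) ^ 3

/-- The scale `2 ^ i`. -/
def wN (l : ℕ) : ℕ := 2 ^ (l + 10)

/-- The position of block `l`. -/
def TN (l : ℕ) : ℕ := 2 ^ (4 * (l + 10) ^ 3)

/-- The square root of `TN l`. -/
def VN (l : ℕ) : ℕ := 2 ^ (2 * (l + 10) ^ 3)

/-- The gain of block `l`. -/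
def QN (l : ℕ) : ℕ := 2 ^ (4 * (l + 10) ^ 2)

/-- The quotient `TN l / wN l ^ 2`. -/
def UN (l : ℕ) : ℕ := 2 ^ (4 * (l + 10) ^ 3 - 2 * (l + 10))

/-- Half the number of nodes of block `l`. -/
def PN (l : ℕ) : ℕ := TN l / (2 * sN l)

/-- The height of the moved nodes of block `l`. -/
noncomputable def hN (l : ℕ) : ℝ :=
  Classical.epsilon fun h : ℝ => (sN l : ℝ) ≤ h ∧ h ≤ 3 * (sN l : ℝ) ^ 2 ∧
    PP (h / sN l) (2 * PN l) = QN l * VN l

/-- The nodes. -/
def node (l j : ℕ) : ℤ := TN l + j * sN l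

/-- The nodes of block `l`. -/
def blk (l : ℕ) : Finset ℤ := (range (2 * PN l)).image (node l)

/-- The nodes of the first `n` blocks. -/
def SS (n : ℕ) : Finset ℤ := (range n).biUnion blk

/-- All nodes, together with `0`. -/
def NN : Set ℤ := {t | t = 0 ∨ ∃ l, t ∈ blk l}

open Classical in
/-- The frequencies: nodes are moved vertically, the other integers stay. -/
noncomputable def lamN (t : ℤ) : ℂ :=
  if h : ∃ p : ℕ × ℕ, p.2 < 2 * PN p.1 ∧ t = node p.1 p.2 then
    zr (TN h.choose.1) (sN h.choose.1) (hN h.choose.1) h.choose.2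
  else t

/-- The factor of block `l`. -/
noncomputable def BB (l : ℕ) (z : ℂ) : ℂ :=
  ∏ j ∈ range (2 * PN l), (z - zr (TN l) (sN l) (hN l) j) / (z - nd (TN l) (sN l) j)

/-- The product of the factors of the blocks from `n` on. -/
noncomputable def rho (n : ℕ) (z : ℂ) : ℂ := ∏' k, BB (n + k) z

open Classical in
/-- The residues of the infinite product. -/
noncomputable def gN (t : ℤ) : ℂ :=
  if t ∈ NN then gS (SS t.natAbs) lamN t * rho t.natAbs t else 0

/-- The coordinates of the vector whose transform is the product over the first `L` blocks. -/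
noncomputable def FF (L : ℕ) (t : ℤ) : ℂ := if t ∈ insert 0 (SS L) then (rho L t)⁻¹ else 0

end Pool.Agent.H590Z.HC
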